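import Pool.Agent.Helper82.AH.Props
import Pool.Agent.Helper10.RC.Homs

/-!
# Packet AH-QT: an additive quasitrace is a trace
-/

open scoped ENNReal NNReal InnerProductSpace ComplexOrder
open Filter Topology

attribute [-instance] CStarMatrix.instAlgebra CStarMatrix.instModule CStarMatrix.instSMul
  CStarMatrix.instMulAction CStarMatrix.instDistribMulAction

noncomputable section
namespace RC
universe u

section
variable {A : Type u} [CStarAlgebra A] [PartialOrder A] [StarOrderedRing A]

private def qs (σ : QTrace A) (a : A) : ℝ := σ.τ Unit (one1 a)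

private theorem qs_smul (σ : QTrace A) (c : ℝ) (a : A) (hc : 0 ≤ c) (ha : 0 ≤ a) :
    qs σ (c • a) = c * qs σ a := by
  unfold qs
  rw [← σ.smul Unit c (one1 a) hc (one1_nonneg ha)]
  congr 1

private theorem qs_tr (σ : QTrace A) (x : A) : qs σ (x * star x) = qs σ (star x * x) := by
  have h := σ.trace Unit Unit (one1 x)
  have h1 : one1 x * (one1 x).conjTranspose = one1 (x * star x) := by
    ext i j
    simp [one1, CStarMatrix.mul_apply]
  have h2 : (one1 x).conjTranspose * one1 x = one1 (star x * x) := by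
    ext i j
    simp [one1, CStarMatrix.mul_apply]
  rw [h1, h2] at h
  exact h

private theorem qs_one (σ : QTrace A) : qs σ (1 : A) = 1 := by
  unfold qs
  rw [← one1H_apply, map_one]
  exact σ.one

private def qS (σ : QTrace A) (a : selfAdjoint A) : ℝ := qs σ ((a : A)⁺) - qs σ ((a : A)⁻)

private theorem qS_eq (σ : QTrace A)
    (h : ∀ a b : A, 0 ≤ a → 0 ≤ b → qs σ (a + b) = qs σ a + qs σ b)
    (a : selfAdjoint A) (p q : A) (hp : 0 ≤ p) (hq : 0 ≤ q) (e : (a : A) = p - q) :
    qS σ a = qs σ p - qs σ q := by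
  have h1 : (a : A)⁺ - (a : A)⁻ = (a : A) := CFC.posPart_sub_negPart (a : A) a.2
  have hP : 0 ≤ (a : A)⁺ := CFC.posPart_nonneg _
  have hN : 0 ≤ (a : A)⁻ := CFC.negPart_nonneg _
  have h2 : (a : A)⁺ + q = p + (a : A)⁻ := by
    have : (a : A)⁺ = p - q + (a : A)⁻ := by
      rw [← e]
      nth_rewrite 2 [← h1]
      abel
    rw [this]
    abel
  have h3 : qs σ ((a : A)⁺) + qs σ q = qs σ p + qs σ ((a : A)⁻) := by
    rw [← h _ _ hP hq, ← h _ _ hp hN, h2]
  unfold qS
  linarith

private def qL (σ : QTrace A)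
    (h : ∀ a b : A, 0 ≤ a → 0 ≤ b → qs σ (a + b) = qs σ a + qs σ b) : selfAdjoint A →ₗ[ℝ] ℝ where
  toFun := qS σ
  map_add' a b := by
    have ha : (a : A)⁺ - (a : A)⁻ = (a : A) := CFC.posPart_sub_negPart (a : A) a.2
    have hb : (b : A)⁺ - (b : A)⁻ = (b : A) := CFC.posPart_sub_negPart (b : A) b.2
    have e : ((a + b : selfAdjoint A) : A) = ((a : A)⁺ + (b : A)⁺) - ((a : A)⁻ + (b : A)⁻) := by
      rw [AddSubgroup.coe_add]
      nth_rewrite 1 [← ha, ← hb]
      abel
    rw [qS_eq σ h (a + b) _ _ (add_nonneg (CFC.posPart_nonneg _) (CFC.posPart_nonneg _))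
      (add_nonneg (CFC.negPart_nonneg _) (CFC.negPart_nonneg _)) e,
      h _ _ (CFC.posPart_nonneg _) (CFC.posPart_nonneg _),
      h _ _ (CFC.negPart_nonneg _) (CFC.negPart_nonneg _)]
    unfold qS
    ring
  map_smul' c a := by
    have ha : (a : A)⁺ - (a : A)⁻ = (a : A) := CFC.posPart_sub_negPart (a : A) a.2
    have hP : 0 ≤ (a : A)⁺ := CFC.posPart_nonneg _
    have hN : 0 ≤ (a : A)⁻ := CFC.negPart_nonneg _
    simp only [RingHom.id_apply, smul_eq_mul]
    rcases le_total 0 c with hc | hc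
    · have e : ((c • a : selfAdjoint A) : A) = c • (a : A)⁺ - c • (a : A)⁻ := by
        rw [selfAdjoint.val_smul, ← smul_sub, ha]
      rw [qS_eq σ h (c • a) _ _ (smul_nonneg hc hP) (smul_nonneg hc hN) e,
        qs_smul σ c _ hc hP, qs_smul σ c _ hc hN]
      unfold qS
      ring
    · have hc' : 0 ≤ -c := by linarith
      have e : ((c • a : selfAdjoint A) : A) = (-c) • (a : A)⁻ - (-c) • (a : A)⁺ := by
        rw [selfAdjoint.val_smul]
        nth_rewrite 1 [← ha]
        rw [smul_sub, neg_smul, neg_smul]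
        abel
      rw [qS_eq σ h (c • a) _ _ (smul_nonneg hc' hN) (smul_nonneg hc' hP) e,
        qs_smul σ (-c) _ hc' hP, qs_smul σ (-c) _ hc' hN]
      unfold qS
      ring

open ComplexStarModule in
private def qPhi (σ : QTrace A)
    (h : ∀ a b : A, 0 ≤ a → 0 ≤ b → qs σ (a + b) = qs σ a + qs σ b) : A →ₗ[ℂ] ℂ where
  toFun a := (qL σ h (ℜ a) : ℂ) + (qL σ h (ℑ a) : ℂ) * Complex.I
  map_add' a b := by
    rw [map_add, map_add, map_add, map_add]
    push_cast
    ring
  map_smul' z a := by
    rw [realPart_smul, imaginaryPart_smul, map_sub, map_add, map_smul, map_smul, map_smul,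
      map_smul]
    simp only [smul_eq_mul, RingHom.id_apply]
    apply Complex.ext
    · simp
    · simp

open ComplexStarModule in
private theorem qPhi_pos (σ : QTrace A)
    (h : ∀ a b : A, 0 ≤ a → 0 ≤ b → qs σ (a + b) = qs σ a + qs σ b) (a : A) (ha : 0 ≤ a) :
    qPhi σ h a = (qs σ a : ℂ) := by
  have hsa : IsSelfAdjoint a := IsSelfAdjoint.of_nonneg ha
  change (qL σ h (ℜ a) : ℂ) + (qL σ h (ℑ a) : ℂ) * Complex.I = _
  rw [hsa.imaginaryPart, map_zero]
  have h1 : qL σ h (ℜ a) = qs σ a - qs σ 0 :=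
    qS_eq σ h (ℜ a) a 0 ha le_rfl (by rw [hsa.coe_realPart, sub_zero])
  have h0 : qs σ (0 : A) = 0 := by
    have := h 0 0 le_rfl le_rfl
    rw [add_zero] at this
    linarith
  rw [h1, h0]
  simp

/-- QT. -/
theorem qToT : QToTP.{u} := by
  intro A _ _ _ σ hadd
  have h : ∀ a b : A, 0 ≤ a → 0 ≤ b → qs σ (a + b) = qs σ a + qs σ b := hadd
  have hpos := qPhi_pos σ h
  have htr : ∀ x : A, qPhi σ h (star x * x) = qPhi σ h (x * star x) := fun x => by
    rw [hpos _ (star_mul_self_nonneg x), hpos _ (mul_star_self_nonneg x), qs_tr]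
  have hst : ∀ a b : A, qPhi σ h (star b * a) = qPhi σ h (a * star b) := by
    intro a b
    have ha := htr a
    have hb := htr b
    have h1 := htr (a + b)
    have h2 := htr (a + Complex.I • b)
    simp only [star_add, star_smul, add_mul, mul_add, map_add, smul_mul_assoc, mul_smul_comm,
      map_smul, smul_eq_mul, Complex.star_def, Complex.conj_I, smul_add, smul_smul, ha, hb]
      at h1 h2
    have hI : Complex.I * Complex.I = -1 := Complex.I_mul_I
    have h3 : Complex.I * (qPhi σ h (star a * b) - qPhi σ h (star b * a))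
        = Complex.I * (qPhi σ h (b * star a) - qPhi σ h (a * star b)) := by
      linear_combination h2
    have h4 := mul_left_cancel₀ Complex.I_ne_zero h3
    have h5 : qPhi σ h (star a * b) + qPhi σ h (star b * a)
        = qPhi σ h (b * star a) + qPhi σ h (a * star b) := by
      linear_combination h1
    linear_combination (h5 - h4) / 2
  refine ⟨⟨qPhi σ h, ?_, ?_, ?_⟩, ?_⟩
  · intro a ha
    rw [hpos a ha]
    exact_mod_cast σ.nonneg Unit _ (one1_nonneg ha)
  · intro a b
    have := hst b (star a)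
    rw [star_star] at this
    exact this
  · rw [hpos 1 zero_le_one, qs_one]
    simp
  · intro a ha
    change qs σ a = (qPhi σ h a).re
    rw [hpos a ha]
    simp

end

end RC
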